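import Mathlib
import Pool.Agent.Y506.RG.Stm

/-!
# Logarithmic moment of `min(F, 1 - F) / f`
-/

set_option autoImplicit false

namespace Pool.Agent.Y252.RG

open MeasureTheory Set Filter Topology
open scoped ENNReal
open Pool.Agent.Y506.RG

/-- the properties which are used on the half line -/
structure HH (C : ℝ) (f : ℝ → ℝ) : Prop where
  one_le : 1 ≤ C
  pos : ∀ s, 0 < f s
  cont : Continuous f
  int0 : Integrable f
  mass : ∫ s, f s = 1
  bd : ∀ s, f s ≤ C
  right : ∀ t, 0 ≤ t → ∫ s in Ioi t, f s ≤ C * f t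
  mr : 1 / C ≤ ∫ s in Ioi 0, f s
  ml : 1 / C ≤ ∫ s in Iic 0, f s

theorem FS {C : ℝ} {f : ℝ → ℝ} (h : HH C f) (t : ℝ) :
    (∫ s in Iic t, f s) + ∫ s in Ioi t, f s = 1 := by
  have := integral_add_compl (μ := volume) (s := Iic t) measurableSet_Iic h.int0
  rw [compl_Iic] at this
  rw [this, h.mass]

theorem Feq {C : ℝ} {f : ℝ → ℝ} (h : HH C f) (t : ℝ) :
    (∫ s in Iic t, f s) = (∫ s in Iic 0, f s) + ∫ s in (0 : ℝ)..t, f s := by
  have := intervalIntegral.integral_Iic_sub_Iic (μ := volume) (f := f) (a := 0) (b := t)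
    h.int0.integrableOn h.int0.integrableOn
  linarith

theorem Seq {C : ℝ} {f : ℝ → ℝ} (h : HH C f) (t : ℝ) :
    (∫ s in Ioi t, f s) = (∫ s in Ioi 0, f s) - ∫ s in (0 : ℝ)..t, f s := by
  have h1 := FS h t
  have h2 := FS h 0
  have h3 := Feq h t
  linarith

theorem Spos {C : ℝ} {f : ℝ → ℝ} (h : HH C f) (t : ℝ) : 0 < ∫ s in Ioi t, f s := by
  rw [setIntegral_pos_iff_support_of_nonneg_ae]
  · have : Function.support f = univ := by
      ext x
      simp [(h.pos x).ne']
    rw [this, univ_inter, Real.volume_Ioi]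
    exact ENNReal.zero_lt_top
  · exact Filter.Eventually.of_forall fun x => (h.pos x).le
  · exact h.int0.integrableOn

theorem Fpos {C : ℝ} {f : ℝ → ℝ} (h : HH C f) (t : ℝ) : 0 < ∫ s in Iic t, f s := by
  rw [setIntegral_pos_iff_support_of_nonneg_ae]
  · have : Function.support f = univ := by
      ext x
      simp [(h.pos x).ne']
    rw [this, univ_inter, Real.volume_Iic]
    exact ENNReal.zero_lt_top
  · exact Filter.Eventually.of_forall fun x => (h.pos x).le
  · exact h.int0.integrableOn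

theorem Sder {C : ℝ} {f : ℝ → ℝ} (h : HH C f) (t : ℝ) :
    HasDerivAt (fun t => ∫ s in Ioi t, f s) (-f t) t := by
  have h1 : (fun t => ∫ s in Ioi t, f s) =
      fun t => (∫ s in Ioi 0, f s) - ∫ s in (0 : ℝ)..t, f s := funext fun t => Seq h t
  rw [h1]
  have h2 : HasDerivAt (fun t => ∫ s in (0 : ℝ)..t, f s) (f t) t :=
    intervalIntegral.integral_hasDerivAt_right (h.cont.intervalIntegrable _ _)
      (h.cont.stronglyMeasurableAtFilter _ _) h.cont.continuousAt
  exact h2.const_sub _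

theorem Slim {C : ℝ} {f : ℝ → ℝ} (h : HH C f) :
    Tendsto (fun t => ∫ s in Ioi t, f s) atTop (𝓝 0) := by
  have h1 : (fun t => ∫ s in Ioi t, f s) =
      fun t => (∫ s in Ioi 0, f s) - ∫ s in (0 : ℝ)..t, f s := funext fun t => Seq h t
  rw [h1]
  have h2 := intervalIntegral_tendsto_integral_Ioi (μ := volume) (f := f) 0
    h.int0.integrableOn tendsto_id
  have h3 := (tendsto_const_nhds (x := ∫ s in Ioi 0, f s)).sub h2
  simpa using h3

/-- the key integral -/
theorem key {C : ℝ} {f : ℝ → ℝ} (h : HH C f) {e : ℝ} (he : 0 < e) :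
    IntegrableOn (fun t => f t * (∫ s in Ioi t, f s) ^ (e - 1)) (Ioi 0) ∧
    ∫ t in Ioi 0, f t * (∫ s in Ioi t, f s) ^ (e - 1) ≤ 1 / e := by
  have hd : ∀ t : ℝ, HasDerivAt (fun t => -((∫ s in Ioi t, f s) ^ e / e))
      (f t * (∫ s in Ioi t, f s) ^ (e - 1)) t := by
    intro t
    have h1 := ((Sder h t).rpow_const (p := e) (Or.inl (Spos h t).ne')).div_const e
    have h2 := h1.neg
    rw [show -(-f t * e * (∫ s in Ioi t, f s) ^ (e - 1) / e) =
      (f t * (∫ s in Ioi t, f s) ^ (e - 1)) * (e / e) by ring, div_self he.ne', mul_one] at h2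
    exact h2
  have hl : Tendsto (fun t => -((∫ s in Ioi t, f s) ^ e / e)) atTop (𝓝 0) := by
    have h1 := (Slim h).rpow_const (p := e) (Or.inr he.le)
    rw [Real.zero_rpow he.ne'] at h1
    have h2 := (h1.div_const e).neg
    simpa using h2
  have hp : ∀ t ∈ Ioi (0 : ℝ), 0 ≤ f t * (∫ s in Ioi t, f s) ^ (e - 1) := fun t _ =>
    mul_nonneg (h.pos t).le (Real.rpow_nonneg (Spos h t).le _)
  refine ⟨integrableOn_Ioi_deriv_of_nonneg' (fun t _ => hd t) hp hl, ?_⟩
  rw [integral_Ioi_of_hasDerivAt_of_nonneg' (fun t _ => hd t) hp hl]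
  have h1 : (∫ s in Ioi 0, f s) ≤ 1 := by
    have := FS h 0
    have := Fpos h 0
    linarith
  have h2 : (∫ s in Ioi 0, f s) ^ e ≤ 1 := Real.rpow_le_one (Spos h 0).le h1 he.le
  have : (∫ s in Ioi 0, f s) ^ e / e ≤ 1 / e := by gcongr
  linarith

/-- the elementary inequality -/
theorem elem {C x y e : ℝ} (hC : 1 ≤ C) (hx : 0 < x) (hy : 0 < y) (hxy : x ≤ C * y)
    (he : 0 < e) (he1 : e < 1) :
    y ^ e * max 0 (Real.log (y / x)) ≤ (2 * C / (1 - e)) * (y * x ^ (e - 1)) := by
  have hb : 0 < (1 - e) / 2 := by linarith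
  have h1 : max 0 (Real.log (y / x)) ≤ (y / x) ^ ((1 - e) / 2) / ((1 - e) / 2) := by
    refine max_le (by positivity) ?_
    exact Real.log_le_rpow_div (by positivity) hb
  have h2 : y ^ e * (y / x) ^ ((1 - e) / 2) ≤ C * (y * x ^ (e - 1)) := by
    have hl : Real.log x ≤ Real.log C + Real.log y := by
      rw [← Real.log_mul (by linarith) hy.ne']
      exact Real.log_le_log hx hxy
    have hC0 : 0 ≤ Real.log C := Real.log_nonneg hC
    rw [← Real.exp_log (show (0 : ℝ) < y ^ e * (y / x) ^ ((1 - e) / 2) by positivity),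
      ← Real.exp_log (show (0 : ℝ) < C * (y * x ^ (e - 1)) by positivity)]
    apply Real.exp_le_exp.mpr
    rw [Real.log_mul (by positivity) (by positivity), Real.log_rpow hy, Real.log_rpow (by positivity),
      Real.log_div hy.ne' hx.ne', Real.log_mul (by positivity) (by positivity),
      Real.log_mul hy.ne' (by positivity), Real.log_rpow hx]
    nlinarith
  calc y ^ e * max 0 (Real.log (y / x)) ≤ y ^ e * ((y / x) ^ ((1 - e) / 2) / ((1 - e) / 2)) := by
        gcongr
    _ = (y ^ e * (y / x) ^ ((1 - e) / 2)) / ((1 - e) / 2) := by ring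
    _ ≤ (C * (y * x ^ (e - 1))) / ((1 - e) / 2) := by gcongr
    _ = (2 * C / (1 - e)) * (y * x ^ (e - 1)) := by
        have : (1 - e) ≠ 0 := by linarith
        field_simp

/-- interpolation -/
theorem interp {C1 p y u e : ℝ} (hC1 : 1 ≤ C1) (hp : 0 ≤ p) (hy : 0 < y)
    (he : e = 1 / (2 * (C1 ^ 2 + 1)))
    (h1 : p ≤ C1 * Real.exp (-u / C1)) (h2 : p ≤ C1 * y * Real.exp (C1 * u)) :
    p ≤ C1 * y ^ e * Real.exp (-(u / (2 * C1))) := by
  have hC0 : 0 < C1 := by linarith
  have he0 : 0 < e := by rw [he]; positivity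
  have he1 : e < 1 := by
    rw [he, div_lt_one (by positivity)]
    nlinarith
  rcases hp.eq_or_lt with hp0 | hp0
  · rw [← hp0]; positivity
  have l1 : Real.log p ≤ Real.log C1 + (-u / C1) := by
    have := Real.log_le_log hp0 h1
    rwa [Real.log_mul hC0.ne' (Real.exp_pos _).ne', Real.log_exp] at this
  have l2 : Real.log p ≤ Real.log C1 + Real.log y + C1 * u := by
    have := Real.log_le_log hp0 h2
    rwa [Real.log_mul (by positivity) (Real.exp_pos _).ne', Real.log_mul hC0.ne' hy.ne',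
      Real.log_exp] at this
  rw [← Real.exp_log hp0, ← Real.exp_log (show 0 < C1 * y ^ e * Real.exp (-(u / (2 * C1))) by positivity)]
  apply Real.exp_le_exp.mpr
  rw [Real.log_mul (by positivity) (Real.exp_pos _).ne', Real.log_mul hC0.ne' (by positivity),
    Real.log_exp, Real.log_rpow hy]
  have h3 : Real.log p ≤ (1 - e) * (Real.log C1 + (-u / C1)) +
      e * (Real.log C1 + Real.log y + C1 * u) := by
    nlinarith
  have h4 : (1 - e) * (-u / C1) + e * (C1 * u) = -(u / (2 * C1)) := by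
    rw [he]
    field_simp
    ring
  nlinarith

/-- a quarter of the claim -/
theorem region {C : ℝ} {f : ℝ → ℝ} (h : HH C f) {t : ℝ} (ht : 0 ≤ t)
    (hk : kf f t < 1 / (2 * C ^ 2)) :
    1 / (2 * C ^ 2) < t ∧ kf f t = (∫ s in Ioi t, f s) / f t := by
  have hC := h.one_le
  have hC0 : 0 < C := by linarith
  have hI : 0 ≤ ∫ s in (0 : ℝ)..t, f s :=
    intervalIntegral.integral_nonneg ht fun s _ => (h.pos s).le
  have hI2 : ∫ s in (0 : ℝ)..t, f s ≤ C * t := by
    have := intervalIntegral.integral_mono_on (μ := volume) (f := f) (g := fun _ => C) ht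
      (h.cont.intervalIntegrable _ _) (by simp) (fun s _ => h.bd s)
    simpa [mul_comm] using this
  have hF : 1 / C ≤ ∫ s in Iic t, f s := by
    rw [Feq h t]
    have := h.ml
    linarith
  have e1 : 1 / (2 * C ^ 2) = (1 / C) / C / 2 := by field_simp
  constructor
  · by_contra hcon
    push Not at hcon
    have hS : 1 / (2 * C) ≤ ∫ s in Ioi t, f s := by
      rw [Seq h t]
      have h1 := h.mr
      have h2 : C * t ≤ C * (1 / (2 * C ^ 2)) := by gcongr
      have h3 : C * (1 / (2 * C ^ 2)) = 1 / C - 1 / (2 * C) := by field_simp; ring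
      linarith
    have hF' : 1 / (2 * C) ≤ ∫ s in Iic t, f s := by
      refine le_trans ?_ hF
      rw [div_le_div_iff₀ (by positivity) hC0]
      linarith
    have hm : 1 / (2 * C) ≤ min (∫ s in Iic t, f s) (∫ s in Ioi t, f s) := le_min hF' hS
    have : 1 / (2 * C ^ 2) ≤ kf f t := by
      unfold kf
      rw [le_div_iff₀ (h.pos t)]
      calc 1 / (2 * C ^ 2) * f t ≤ 1 / (2 * C ^ 2) * C := by
            gcongr
            exact h.bd t
        _ = 1 / (2 * C) := by field_simp
        _ ≤ _ := hm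
    linarith
  · unfold kf
    congr 1
    rw [min_eq_right_iff]
    by_contra hcon
    push Not at hcon
    have hm : min (∫ s in Iic t, f s) (∫ s in Ioi t, f s) = ∫ s in Iic t, f s :=
      min_eq_left hcon.le
    have : 1 / (2 * C ^ 2) ≤ kf f t := by
      unfold kf
      rw [hm, le_div_iff₀ (h.pos t)]
      calc 1 / (2 * C ^ 2) * f t ≤ 1 / (2 * C ^ 2) * C := by
            gcongr
            exact h.bd t
        _ ≤ 1 / C := by
            rw [div_mul_eq_mul_div, div_le_div_iff₀ (by positivity) hC0]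
            nlinarith [sq_nonneg C]
        _ ≤ _ := hF
    linarith

/-- the constant -/
noncomputable def cst (C C1 : ℝ) : ℝ :=
  Real.log (2 * C ^ 2) * (C1 * C1) +
    C1 * (2 * C / (1 - 1 / (2 * (C1 ^ 2 + 1)))) * (4 * C1 * C ^ 2) * (2 * (C1 ^ 2 + 1))

theorem pointwise {C C1 : ℝ} {f : ℝ → ℝ} (h : HH C f) (hC1 : 1 ≤ C1) {g u : ℝ} (hg : 0 < g)
    (hu : 0 < u) {p : ℝ} (hp : 0 ≤ p) {e : ℝ} (he : e = 1 / (2 * (C1 ^ 2 + 1)))
    (h1 : p ≤ C1 * Real.exp (-u / C1)) (h2 : p ≤ C1 * f (g * u) * Real.exp (C1 * u)) :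
    max 0 (-Real.log (kf f (g * u))) * p ≤
      Real.log (2 * C ^ 2) * (C1 * Real.exp (-u / C1)) +
      (C1 * (2 * C / (1 - e)) * Real.exp (-(1 / (2 * C ^ 2) / (2 * C1 * g)))) *
        (f (g * u) * (∫ s in Ioi (g * u), f s) ^ (e - 1)) := by
  have hC := h.one_le
  have hC0 : 0 < C := by linarith
  have hC10 : 0 < C1 := by linarith
  have he0 : 0 < e := by rw [he]; positivity
  have he1 : e < 1 := by
    rw [he, div_lt_one (by positivity)]
    nlinarith
  have h1e : 0 < 1 - e := by linarith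
  have hL : 0 ≤ Real.log (2 * C ^ 2) := Real.log_nonneg (by nlinarith)
  have hfp := h.pos (g * u)
  have hSp := Spos h (g * u)
  have hFp := Fpos h (g * u)
  have hgu : 0 ≤ g * u := by positivity
  have hsec : 0 ≤ (C1 * (2 * C / (1 - e)) * Real.exp (-(1 / (2 * C ^ 2) / (2 * C1 * g)))) *
        (f (g * u) * (∫ s in Ioi (g * u), f s) ^ (e - 1)) := by
    have := Real.rpow_nonneg hSp.le (e - 1)
    positivity
  have hkp : 0 < kf f (g * u) := by
    unfold kf
    exact div_pos (lt_min hFp hSp) hfp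
  by_cases hk : kf f (g * u) < 1 / (2 * C ^ 2)
  · obtain ⟨ht, hkf⟩ := region h hgu hk
    have h3 : max 0 (-Real.log (kf f (g * u))) =
        max 0 (Real.log (f (g * u) / ∫ s in Ioi (g * u), f s)) := by
      rw [hkf, ← Real.log_inv, inv_div]
    have h4 := interp hC1 hp hfp he h1 h2
    have h5 := elem hC hSp hfp (h.right _ hgu) he0 he1
    have h6 : Real.exp (-(u / (2 * C1))) ≤ Real.exp (-(1 / (2 * C ^ 2) / (2 * C1 * g))) := by
      apply Real.exp_le_exp.mpr
      apply neg_le_neg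
      rw [div_le_div_iff₀ (by positivity) (by positivity)]
      nlinarith [mul_pos hC10 hg]
    rw [h3]
    have hm : 0 ≤ max 0 (Real.log (f (g * u) / ∫ s in Ioi (g * u), f s)) := le_max_left _ _
    calc max 0 (Real.log (f (g * u) / ∫ s in Ioi (g * u), f s)) * p
        ≤ max 0 (Real.log (f (g * u) / ∫ s in Ioi (g * u), f s)) *
          (C1 * f (g * u) ^ e * Real.exp (-(1 / (2 * C ^ 2) / (2 * C1 * g)))) := by
            refine mul_le_mul_of_nonneg_left (h4.trans ?_) hm
            gcongr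
      _ = C1 * Real.exp (-(1 / (2 * C ^ 2) / (2 * C1 * g))) *
          (f (g * u) ^ e * max 0 (Real.log (f (g * u) / ∫ s in Ioi (g * u), f s))) := by ring
      _ ≤ C1 * Real.exp (-(1 / (2 * C ^ 2) / (2 * C1 * g))) *
          ((2 * C / (1 - e)) * (f (g * u) * (∫ s in Ioi (g * u), f s) ^ (e - 1))) := by
            gcongr
      _ = (C1 * (2 * C / (1 - e)) * Real.exp (-(1 / (2 * C ^ 2) / (2 * C1 * g)))) *
        (f (g * u) * (∫ s in Ioi (g * u), f s) ^ (e - 1)) := by ring
      _ ≤ _ := by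
        have : 0 ≤ Real.log (2 * C ^ 2) * (C1 * Real.exp (-u / C1)) := by positivity
        linarith
  · push Not at hk
    have h3 : max 0 (-Real.log (kf f (g * u))) ≤ Real.log (2 * C ^ 2) := by
      refine max_le hL ?_
      rw [← Real.log_inv]
      apply Real.log_le_log (by positivity)
      rw [inv_le_comm₀ hkp (by positivity)]
      rwa [← one_div]
    have h4 : max 0 (-Real.log (kf f (g * u))) * p ≤
        Real.log (2 * C ^ 2) * (C1 * Real.exp (-u / C1)) := by
      gcongr
    linarith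

theorem half {C C1 : ℝ} {f : ℝ → ℝ} (h : HH C f) (hC1 : 1 ≤ C1) {g : ℝ} (hg : 0 < g)
    (P : ℝ → ℝ≥0∞)
    (h1 : ∀ u, 0 < u → P u ≤ ENNReal.ofReal (C1 * Real.exp (-u / C1)))
    (h2 : ∀ u, 0 < u → P u ≤ ENNReal.ofReal (C1 * f (g * u) * Real.exp (C1 * u))) :
    ∫⁻ u in Ioi 0, ENNReal.ofReal (max 0 (-Real.log (kf f (g * u)))) * P u ≤
      ENNReal.ofReal (cst C C1) := by
  have hC := h.one_le
  have hC0 : 0 < C := by linarith
  have hC10 : 0 < C1 := by linarith
  obtain ⟨e, he⟩ : ∃ e : ℝ, e = 1 / (2 * (C1 ^ 2 + 1)) := ⟨_, rfl⟩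
  have he0 : 0 < e := by rw [he]; positivity
  have he1 : e < 1 := by
    rw [he, div_lt_one (by positivity)]
    nlinarith
  have h1e : 0 < 1 - e := by linarith
  have hL : 0 ≤ Real.log (2 * C ^ 2) := Real.log_nonneg (by nlinarith)
  obtain ⟨hki, hkb⟩ := key h he0
  obtain ⟨E, hE⟩ : ∃ E : ℝ, E = C1 * (2 * C / (1 - e)) *
    Real.exp (-(1 / (2 * C ^ 2) / (2 * C1 * g))) := ⟨_, rfl⟩
  have hE0 : 0 < E := by rw [hE]; positivity
  -- the majorant
  have i1 : IntegrableOn (fun u => Real.log (2 * C ^ 2) * (C1 * Real.exp (-u / C1))) (Ioi 0) := by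
    have := (integrableOn_exp_mul_Ioi (a := -(1 / C1)) (by
      have : 0 < 1 / C1 := by positivity
      linarith) 0).const_mul (Real.log (2 * C ^ 2) * C1)
    refine IntegrableOn.congr_fun this (fun u _ => ?_) measurableSet_Ioi
    show Real.log (2 * C ^ 2) * C1 * Real.exp (-(1 / C1) * u) = _
    rw [mul_assoc]
    congr 3
    ring
  have v1 : ∫ u in Ioi (0 : ℝ), Real.log (2 * C ^ 2) * (C1 * Real.exp (-u / C1)) =
      Real.log (2 * C ^ 2) * (C1 * C1) := by
    rw [integral_const_mul, integral_const_mul]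
    congr 2
    have := integral_exp_mul_Ioi (a := -(1 / C1)) (by
      have : 0 < 1 / C1 := by positivity
      linarith) 0
    have h3 : ∫ u in Ioi (0 : ℝ), Real.exp (-u / C1) = ∫ u in Ioi (0 : ℝ), Real.exp (-(1 / C1) * u) := by
      congr 1
      ext u
      congr 1
      ring
    rw [h3, this]
    simp
  have i2 : IntegrableOn (fun u => E * (f (g * u) * (∫ s in Ioi (g * u), f s) ^ (e - 1))) (Ioi 0) := by
    refine Integrable.const_mul ?_ E
    have := (integrableOn_Ioi_comp_mul_left_iff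
      (fun t => f t * (∫ s in Ioi t, f s) ^ (e - 1)) 0 hg).mpr (by simpa using hki)
    exact this
  have v2 : ∫ u in Ioi (0 : ℝ), E * (f (g * u) * (∫ s in Ioi (g * u), f s) ^ (e - 1)) ≤
      C1 * (2 * C / (1 - e)) * (4 * C1 * C ^ 2) * (1 / e) := by
    rw [integral_const_mul]
    have h3 := integral_comp_mul_left_Ioi
      (fun t => f t * (∫ s in Ioi t, f s) ^ (e - 1)) 0 hg
    simp only [mul_zero, smul_eq_mul] at h3
    rw [h3]
    have h4 : Real.exp (-(1 / (2 * C ^ 2) / (2 * C1 * g))) * g⁻¹ ≤ 4 * C1 * C ^ 2 := by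
      have hx : 0 < 1 / (2 * C ^ 2) / (2 * C1 * g) := by positivity
      have h5 : Real.exp (-(1 / (2 * C ^ 2) / (2 * C1 * g))) ≤ (1 / (2 * C ^ 2) / (2 * C1 * g))⁻¹ := by
        rw [Real.exp_neg]
        apply inv_anti₀ hx
        have := Real.add_one_le_exp (1 / (2 * C ^ 2) / (2 * C1 * g))
        linarith
      calc Real.exp (-(1 / (2 * C ^ 2) / (2 * C1 * g))) * g⁻¹
          ≤ (1 / (2 * C ^ 2) / (2 * C1 * g))⁻¹ * g⁻¹ := by gcongr
        _ = 4 * C1 * C ^ 2 := by
          field_simp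
          ring
    calc E * (g⁻¹ * ∫ t in Ioi 0, f t * (∫ s in Ioi t, f s) ^ (e - 1))
        ≤ E * (g⁻¹ * (1 / e)) := by gcongr
      _ = C1 * (2 * C / (1 - e)) * (Real.exp (-(1 / (2 * C ^ 2) / (2 * C1 * g))) * g⁻¹) * (1 / e) := by
        rw [hE]; ring
      _ ≤ _ := by gcongr
  -- comparison
  have hpt : ∀ u ∈ Ioi (0 : ℝ), ENNReal.ofReal (max 0 (-Real.log (kf f (g * u)))) * P u ≤
      ENNReal.ofReal (Real.log (2 * C ^ 2) * (C1 * Real.exp (-u / C1)) +
        E * (f (g * u) * (∫ s in Ioi (g * u), f s) ^ (e - 1))) := by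
    intro u hu
    have hu0 : 0 < u := hu
    have hfin : P u ≠ ∞ := ((h1 u hu0).trans_lt ENNReal.ofReal_lt_top).ne
    have hp1 : (P u).toReal ≤ C1 * Real.exp (-u / C1) :=
      ENNReal.toReal_le_of_le_ofReal (by positivity) (h1 u hu0)
    have hp2 : (P u).toReal ≤ C1 * f (g * u) * Real.exp (C1 * u) := by
      have := h.pos (g * u)
      exact ENNReal.toReal_le_of_le_ofReal (by positivity) (h2 u hu0)
    have := pointwise h hC1 hg hu0 ENNReal.toReal_nonneg he hp1 hp2
    rw [← hE] at this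
    calc ENNReal.ofReal (max 0 (-Real.log (kf f (g * u)))) * P u
        = ENNReal.ofReal (max 0 (-Real.log (kf f (g * u))) * (P u).toReal) := by
          rw [ENNReal.ofReal_mul (le_max_left _ _), ENNReal.ofReal_toReal hfin]
      _ ≤ _ := ENNReal.ofReal_le_ofReal this
  calc ∫⁻ u in Ioi 0, ENNReal.ofReal (max 0 (-Real.log (kf f (g * u)))) * P u
      ≤ ∫⁻ u in Ioi 0, ENNReal.ofReal (Real.log (2 * C ^ 2) * (C1 * Real.exp (-u / C1)) +
        E * (f (g * u) * (∫ s in Ioi (g * u), f s) ^ (e - 1))) :=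
        setLIntegral_mono' measurableSet_Ioi hpt
    _ = ENNReal.ofReal (∫ u in Ioi (0 : ℝ), (Real.log (2 * C ^ 2) * (C1 * Real.exp (-u / C1)) +
        E * (f (g * u) * (∫ s in Ioi (g * u), f s) ^ (e - 1)))) := by
        symm
        refine ofReal_integral_eq_lintegral_ofReal (i1.add i2) ?_
        refine Filter.Eventually.of_forall fun u => ?_
        have := h.pos (g * u)
        have h3 := Real.rpow_nonneg (Spos h (g * u)).le (e - 1)
        have : 0 ≤ Real.log (2 * C ^ 2) * (C1 * Real.exp (-u / C1)) +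
          E * (f (g * u) * (∫ s in Ioi (g * u), f s) ^ (e - 1)) := by positivity
        exact this
    _ ≤ ENNReal.ofReal (cst C C1) := by
        apply ENNReal.ofReal_le_ofReal
        rw [integral_add i1 i2, v1]
        unfold cst
        rw [← he]
        have : (1 / e) = 2 * (C1 ^ 2 + 1) := by rw [he]; simp
        rw [← this]
        linarith

theorem HH_of {C : ℝ} {f : ℝ → ℝ} (h1 : ND f) (h2 : OB C f) : HH C f where
  one_le := h2.one_le
  pos := h1.pos
  cont := h1.cont
  int0 := h1.int0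
  mass := h1.mass
  bd s := by
    have hC := h2.one_le
    have hC0 : 0 < C := by linarith
    refine (h2.tail s).trans ?_
    have : Real.exp (-|s| / C) ≤ 1 := by
      apply Real.exp_le_one_iff.mpr
      have : 0 ≤ |s| / C := by positivity
      rw [neg_div]
      linarith
    nlinarith
  right := h2.right
  mr := h2.mr
  ml := h2.ml

theorem HH_neg {C : ℝ} {f : ℝ → ℝ} (h1 : ND f) (h2 : OB C f) : HH C (fun s => f (-s)) where
  one_le := h2.one_le
  pos s := h1.pos _
  cont := h1.cont.comp continuous_neg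
  int0 := h1.int0.comp_neg
  mass := by rw [integral_neg_eq_self (f := f)]; exact h1.mass
  bd s := (HH_of h1 h2).bd _
  right t ht := by
    rw [integral_comp_neg_Ioi]
    exact h2.left (-t) (by linarith)
  mr := by
    rw [integral_comp_neg_Ioi, neg_zero]
    exact h2.ml
  ml := by
    rw [integral_comp_neg_Iic, neg_zero]
    exact h2.mr

theorem kf_neg (f : ℝ → ℝ) (t : ℝ) : kf (fun s => f (-s)) t = kf f (-t) := by
  unfold kf
  rw [integral_comp_neg_Iic, integral_comp_neg_Ioi, min_comm]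

theorem logr : S_LOGR := by
  intro C C1 hC1
  by_cases hC : 1 ≤ C
  swap
  · exact ⟨1, one_pos, fun f _ h => absurd h.one_le hC⟩
  have hcst : 0 ≤ cst C C1 := by
    have hL : 0 ≤ Real.log (2 * C ^ 2) := Real.log_nonneg (by nlinarith)
    have he1 : 0 < 1 - 1 / (2 * (C1 ^ 2 + 1)) := by
      have : 1 / (2 * (C1 ^ 2 + 1)) < 1 := by
        rw [div_lt_one (by positivity)]
        nlinarith
      linarith
    unfold cst
    positivity
  refine ⟨cst C C1 + cst C C1 + 1, by linarith, ?_⟩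
  intro f hN hO P hPm hP1 g hg hg1 hP2
  have hsplit : ∫⁻ u, ENNReal.ofReal (max 0 (-Real.log (kf f (g * u)))) * P u =
      (∫⁻ u in Ioi 0, ENNReal.ofReal (max 0 (-Real.log (kf f (g * u)))) * P u) +
      ∫⁻ u in Iic 0, ENNReal.ofReal (max 0 (-Real.log (kf f (g * u)))) * P u := by
    have := lintegral_add_compl (μ := volume)
      (fun u => ENNReal.ofReal (max 0 (-Real.log (kf f (g * u)))) * P u)
      (measurableSet_Ioi (a := (0 : ℝ)))
    rw [compl_Ioi] at this
    exact this.symm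
  have hA : ∫⁻ u in Ioi 0, ENNReal.ofReal (max 0 (-Real.log (kf f (g * u)))) * P u ≤
      ENNReal.ofReal (cst C C1) := by
    refine half (HH_of hN hO) hC1 hg P (fun u hu => ?_) (fun u hu => ?_)
    · have := hP1 u
      rwa [abs_of_pos hu] at this
    · have := hP2 u
      rwa [abs_of_pos hu] at this
  have hB : ∫⁻ u in Iic 0, ENNReal.ofReal (max 0 (-Real.log (kf f (g * u)))) * P u ≤
      ENNReal.ofReal (cst C C1) := by
    have h1 := half (HH_neg hN hO) hC1 hg (fun u => P (-u)) (fun u hu => ?_) (fun u hu => ?_)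
    · have h2 : ∫⁻ u in Iic (0 : ℝ), ENNReal.ofReal (max 0 (-Real.log (kf f (g * u)))) * P u =
          ∫⁻ u in Ioi (0 : ℝ), ENNReal.ofReal (max 0 (-Real.log (kf (fun s => f (-s)) (g * u)))) *
            P (-u) := by
        have h3 : ∀ u : ℝ, ENNReal.ofReal (max 0 (-Real.log (kf (fun s => f (-s)) (g * u)))) *
            P (-u) = (fun v => ENNReal.ofReal (max 0 (-Real.log (kf f (g * v)))) * P v) (-u) := by
          intro u
          simp only
          rw [kf_neg, mul_neg]
        simp_rw [h3]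
        rw [setLIntegral_congr (Iio_ae_eq_Iic (a := (0 : ℝ))).symm]
        have hmp : MeasurePreserving (fun u : ℝ => -u) volume volume :=
          Measure.measurePreserving_neg volume
        have h4 := hmp.setLIntegral_comp_preimage_emb
          (MeasurableEquiv.neg ℝ).measurableEmbedding
          (fun v => ENNReal.ofReal (max 0 (-Real.log (kf f (g * v)))) * P v) (Iio 0)
        rw [← h4]
        congr 2
        ext x
        simp
      rw [h2]
      exact h1
    · have := hP1 (-u)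
      rwa [abs_neg, abs_of_pos hu] at this
    · have := hP2 (-u)
      rw [abs_neg, abs_of_pos hu, mul_neg] at this
      exact this
  calc ∫⁻ u, ENNReal.ofReal (max 0 (-Real.log (kf f (g * u)))) * P u
      ≤ ENNReal.ofReal (cst C C1) + ENNReal.ofReal (cst C C1) := by
        rw [hsplit]
        exact add_le_add hA hB
    _ = ENNReal.ofReal (cst C C1 + cst C C1) := (ENNReal.ofReal_add hcst hcst).symm
    _ ≤ _ := ENNReal.ofReal_le_ofReal (by linarith)

end Pool.Agent.Y252.RG
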